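import Pool.Agent.N242.VD.Dense

/-!
# MP_73700b_an: separable Hilbert space with an asymptotically (quadratically) uniformly convex norm
has no point-finite covering by balls of bounded radii

Author: helper242 (project VD).
-/

set_option autoImplicit false

open Metric Set Filter Topology

namespace Pool.Agent.Results.MP_73700b_an.AsymptoticallyConvexNorms

universe u

section defs

variable {H : Type u} [NormedAddCommGroup H] [InnerProductSpace ℝ H]

/-- The seminorm `p` is an equivalent norm on `H`. -/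
def IsEquivalentNorm (p : Seminorm ℝ H) : Prop :=
  ∃ c C : ℝ, 0 < c ∧ ∀ x, c * ‖x‖ ≤ p x ∧ p x ≤ C * ‖x‖

/-- `p` is asymptotically quadratically uniformly convex: there is `c > 0` such that
`liminf p (x + δ)² ≥ p (x)² + c ‖δ‖²` for weakly null `δ`, that is, for every point `x` and every
`η > 0` there is a finite-dimensional subspace `N` with `p (x + δ)² ≥ p (x)² + c ‖δ‖² - η` for all
vectors `δ` orthogonal to `N` with `‖δ‖ ≤ 1`. -/
def IsAUC (p : Seminorm ℝ H) : Prop :=
  ∃ c > 0, ∀ (x : H) (η : ℝ), 0 < η → ∃ N : Submodule ℝ H, FiniteDimensional ℝ N ∧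
    ∀ δ ∈ Nᗮ, ‖δ‖ ≤ 1 → p x ^ 2 + c * ‖δ‖ ^ 2 ≤ p (x + δ) ^ 2 + η

/-- `𝓑` is a covering of `H` by closed `p`-balls with radii in `(0, R]`. -/
def IsBallCovering (p : Seminorm ℝ H) (R : ℝ) (𝓑 : Set (Set H)) : Prop :=
  (∀ B ∈ 𝓑, ∃ (a : H) (r : ℝ), 0 < r ∧ r ≤ R ∧ B = {x | p (x - a) ≤ r}) ∧ ⋃₀ 𝓑 = univ

end defs

theorem int_mem {H : Type u} [NormedAddCommGroup H] [InnerProductSpace ℝ H] (p : Seminorm ℝ H)
    {C : ℝ} (hC : 0 < C) (hp : ∀ x, p x ≤ C * ‖x‖) (a x : H) (r : ℝ) (hx : p (x - a) < r) :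
    x ∈ interior {x | p (x - a) ≤ r} := by
  have ho : IsOpen {y | p (y - a) < r} :=
    isOpen_lt ((Pool.Agent.N242.VD.Dense.cont p hC hp).comp
      (continuous_id.sub continuous_const)) continuous_const
  exact mem_interior.2 ⟨{y | p (y - a) < r}, fun y (hy : p (y - a) < r) => (hy.le : p (y - a) ≤ r), ho, hx⟩

/-- Part (1). -/
theorem covering (H : Type u) [NormedAddCommGroup H] [InnerProductSpace ℝ H] [CompleteSpace H]
    [TopologicalSpace.SeparableSpace H] (hinf : ¬ FiniteDimensional ℝ H) (p : Seminorm ℝ H)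
    (hp : IsEquivalentNorm p) (hA : IsAUC p) (R : ℝ) (𝓑 : Set (Set H))
    (h𝓑 : IsBallCovering p R 𝓑) :
    ∃ x, (∃ B ∈ 𝓑, x ∈ interior B) ∧ {B | B ∈ 𝓑 ∧ x ∈ B}.Infinite := by
  by_contra hcon
  have hcon : ∀ x, ∀ B ∈ 𝓑, x ∈ interior B → {B | B ∈ 𝓑 ∧ x ∈ B}.Finite := fun x B hB hx =>
    Set.not_infinite.1 fun h => hcon ⟨x, ⟨B, hB, hx⟩, h⟩
  obtain ⟨hball, hcov⟩ := h𝓑
  obtain ⟨c₁, C₀, hc₁, hpe⟩ := hp
  obtain ⟨c, hc, hA⟩ := hA
  obtain ⟨C, hC⟩ : ∃ C, C = |C₀| + 1 := ⟨_, rfl⟩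
  have hC0 : 0 < C := by rw [hC]; positivity
  have hp₂ : ∀ x, p x ≤ C * ‖x‖ := fun x => (hpe x).2.trans (by
    rw [hC]
    have := le_abs_self C₀
    have h2 := norm_nonneg x
    nlinarith)
  have hint : ∀ (a x : H) (r : ℝ), p (x - a) < r → x ∈ interior {x | p (x - a) ≤ r} := by
    exact fun a x r hx => int_mem p hC0 hp₂ a x r hx
  -- countability
  have hcount : 𝓑.Countable := by
    obtain ⟨Q, hQc, hQd⟩ := TopologicalSpace.exists_countable_dense H
    have h1 : 𝓑 ⊆ ⋃ q ∈ Q, {B | B ∈ 𝓑 ∧ q ∈ interior B} := by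
      intro B hB
      obtain ⟨a, r, hr, -, hBe⟩ := hball B hB
      obtain ⟨q, hqQ, hq⟩ := hQd.exists_mem_open (isOpen_ball (x := a) (ε := r / C))
        ⟨a, mem_ball_self (by positivity)⟩
      refine Set.mem_biUnion hqQ ⟨hB, ?_⟩
      rw [hBe]
      refine hint a q r ?_
      rw [mem_ball, dist_eq_norm, lt_div_iff₀ hC0] at hq
      have := hp₂ (q - a)
      linarith
    refine (hQc.biUnion fun q _ => ?_).mono h1
    rcases Set.eq_empty_or_nonempty {B | B ∈ 𝓑 ∧ q ∈ interior B} with h2 | ⟨B, hB, hqB⟩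
    · rw [h2]; exact countable_empty
    · exact ((hcon q B hB hqB).subset fun B' hB' => ⟨hB'.1, interior_subset hB'.2⟩).countable
  have : Countable 𝓑 := hcount.to_subtype
  choose a r hr0 hrR hBe using fun B : 𝓑 => hball B B.2
  have hmem : ∀ (B : 𝓑) (x : H), p (x - a B) ≤ r B ↔ x ∈ (B : Set H) := fun B x => by
    conv_rhs => rw [hBe B]
    exact Iff.rfl
  refine Pool.Agent.N242.VD.Cov.cover hinf p hc₁ (fun x => (hpe x).1) hC0 hp₂ hc hA a r hr0 hrR ?_ ?_
  · intro x
    obtain ⟨B, hB, hx⟩ : x ∈ ⋃₀ 𝓑 := by rw [hcov]; trivial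
    exact ⟨⟨B, hB⟩, (hmem _ x).2 hx⟩
  · intro x B hx
    have h1 : {i : 𝓑 | p (x - a i) ≤ r i} = Subtype.val ⁻¹' {B | B ∈ 𝓑 ∧ x ∈ B} := by
      ext B
      constructor
      · intro h; exact ⟨B.2, (hmem B x).1 h⟩
      · intro h; exact (hmem B x).2 h.2
    rw [h1]
    have h2 : x ∈ interior (B : Set H) := by
      rw [hBe B]
      exact hint _ _ _ hx
    exact (hcon x B B.2 h2).preimage Subtype.val_injective.injOn

/-- **Theorem.**  Let `H` be a separable infinite-dimensional Hilbert space and `p` an equivalent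
norm on `H` which is asymptotically quadratically uniformly convex.

(1) Every covering of `H` by closed `p`-balls with bounded radii has a point which lies in infinitely
many of the balls, and in the interior of one of them.

(2) So `H` has no tiling by closed `p`-balls with bounded radii, point-finite or not.

(3) These norms are dense among all equivalent norms. -/
theorem result (H : Type u) [NormedAddCommGroup H] [InnerProductSpace ℝ H] [CompleteSpace H]
    [TopologicalSpace.SeparableSpace H] (hinf : ¬ FiniteDimensional ℝ H) :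
    (∀ p : Seminorm ℝ H, IsEquivalentNorm p → IsAUC p → ∀ (R : ℝ) (𝓑 : Set (Set H)),
      IsBallCovering p R 𝓑 →
      (∃ x, (∃ B ∈ 𝓑, x ∈ interior B) ∧ {B | B ∈ 𝓑 ∧ x ∈ B}.Infinite) ∧
      ¬ 𝓑.Pairwise fun B B' => Disjoint (interior B) (interior B')) ∧
    (∀ q : Seminorm ℝ H, IsEquivalentNorm q → ∀ ε > 0, ∃ p : Seminorm ℝ H,
      (∀ x, q x ≤ p x ∧ p x ≤ (1 + ε) * q x) ∧ IsEquivalentNorm p ∧ IsAUC p) := by
  refine ⟨fun p hp hA R 𝓑 h𝓑 => ⟨covering H hinf p hp hA R 𝓑 h𝓑, fun hdis => ?_⟩, ?_⟩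
  · obtain ⟨x, ⟨B, hB, hx⟩, hinf'⟩ := covering H hinf p hp hA R 𝓑 h𝓑
    refine hinf' ((Set.finite_singleton B).subset ?_)
    rintro B' ⟨hB', hx'⟩
    by_contra hne
    have h1 := hdis hB hB' (fun h => hne h.symm)
    -- `B'` is contained in the closure of its interior
    obtain ⟨a, r, hr, -, hBe⟩ := h𝓑.1 B' hB'
    obtain ⟨c₁, C₀, hc₁, hpe⟩ := hp
    have hC0 : 0 < |C₀| + 1 := by positivity
    have hp₂ : ∀ x, p x ≤ (|C₀| + 1) * ‖x‖ := fun x => (hpe x).2.trans (by
      have := le_abs_self C₀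
      have h2 := norm_nonneg x
      nlinarith)
    have hcl : B' ⊆ closure (interior B') := by
      have hcv : Convex ℝ B' := by
        rw [hBe]
        intro y hy z hz s u hs hu hsu
        have h2 := Pool.Agent.N242.VD.Dense.convex_le p r (show y - a ∈ {y | p y ≤ r} from hy)
          (show z - a ∈ {y | p y ≤ r} from hz) hs hu hsu
        show p (s • y + u • z - a) ≤ r
        have h3 : s • y + u • z - a = s • (y - a) + u • (z - a) := by
          have h4 : a = (s + u) • a := by rw [hsu, one_smul]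
          rw [smul_sub, smul_sub]
          nth_rewrite 1 [h4]
          rw [add_smul]
          abel
        rw [h3]
        exact h2
      have hclo : IsClosed B' := by
        rw [hBe]
        exact isClosed_le ((Pool.Agent.N242.VD.Dense.cont p hC0 hp₂).comp
          (continuous_id.sub continuous_const)) continuous_const
      have hne' : (interior B').Nonempty := by
        refine ⟨a, ?_⟩
        rw [hBe]
        refine int_mem p hC0 hp₂ a a r ?_
        rw [sub_self, map_zero]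
        exact hr
      rw [hcv.closure_interior_eq_closure_of_nonempty_interior hne', hclo.closure_eq]
    obtain ⟨y, hy1, hy2⟩ := mem_closure_iff.1 (hcl hx') _ isOpen_interior hx
    exact Set.disjoint_left.1 h1 hy1 hy2
  rintro q ⟨c, C, hc, hq⟩ ε hε
  obtain ⟨p, hp, s, hs, hA⟩ := Pool.Agent.N242.VD.Dense.dense q hc hq hε
  refine ⟨p, hp, ⟨c, (1 + ε) * C, hc, fun x => ⟨(hq x).1.trans (hp x).1, (hp x).2.trans ?_⟩⟩,
    s, hs, hA⟩
  have h1 := (hq x).2
  have h2 : (1 + ε) * q x ≤ (1 + ε) * (C * ‖x‖) := mul_le_mul_of_nonneg_left h1 (by positivity)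
  linarith

end Pool.Agent.Results.MP_73700b_an.AsymptoticallyConvexNorms
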