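import Pool.Agent.N242.NT.Lur
import Pool.Agent.N242.NT.Kot
import Pool.Agent.N919.NT.SEP
import Pool.Agent.N713.NT.FLA
import Pool.Agent.N747.NT.Ext
import Pool.Agent.N322.NT.REF
import Pool.Agent.N901.NT.HIL
import Pool.Agent.N187.NT.PER
import Pool.Agent.N946.NT.DIS
import Pool.Agent.N701.NT.SEM

/-!
# MP_73700b_an: a local criterion for the nonexistence of tilings by balls, and renormings of Hilbert
spaces

Project NT: helper242 (proof, main theorem, assembly), helper919 (SEP), helper713 (FLA),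
helper747 (EXT), helper344 (LNU), helper78 (BAI), helper707 (MAI), helper322 (REF), helper901 (HIL),
helper187 (PER), helper946 (DIS), helper701 (SEM).
-/

set_option autoImplicit false

open Metric Set Filter Topology

namespace Pool.Agent.Results.MP_73700b_an.BallTilings

universe u

section defs

variable {X : Type u} [NormedAddCommGroup X] [NormedSpace ℝ X]

/-- `𝒯` is a tiling of `X` by balls: its members are closed balls of positive (arbitrary) radii with
pairwise disjoint interiors, and their union is `X`. -/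
def IsBallTiling (𝒯 : Set (Set X)) : Prop :=
  (∀ T ∈ 𝒯, ∃ (c : X) (r : ℝ), 0 < r ∧ T = closedBall c r) ∧ ⋃₀ 𝒯 = univ ∧
    𝒯.Pairwise fun S T => Disjoint (interior S) (interior T)

/-- The same for the balls of a seminorm `M` on `X` (in the applications: an equivalent norm); the
interiors are taken in the norm topology of `X`. -/
def IsTilingFor (M : Seminorm ℝ X) (𝒯 : Set (Set X)) : Prop :=
  (∀ T ∈ 𝒯, ∃ (c : X) (r : ℝ), 0 < r ∧ T = M.closedBall c r) ∧ ⋃₀ 𝒯 = univ ∧
    𝒯.Pairwise fun S T => Disjoint (interior S) (interior T)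

/-- The norm `M` is equivalent to the norm of `X`. -/
def Equivalent (M : Seminorm ℝ X) : Prop :=
  ∃ c C : ℝ, 0 < c ∧ ∀ x, c * ‖x‖ ≤ M x ∧ M x ≤ C * ‖x‖

/-- The point `e` of the unit sphere is *good*: (i) the unit ball is not flat in finite codimension
at `e`, that is, every closed subspace of finite codimension contains arbitrarily small vectors `v`
with `‖e + v‖ > 1`; (ii) there is no sequence `u` with `‖u j‖ → 1`, `‖u i - u j‖ ≥ 2` for `i ≠ j`,
and `‖e + u j‖ ≥ 2` for all `j`. -/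
def IsGood (e : X) : Prop :=
  ‖e‖ = 1 ∧
  (∀ (G : Finset (X →L[ℝ] ℝ)) (ε : ℝ), 0 < ε → ∃ v, (∀ f ∈ G, f v = 0) ∧ ‖v‖ ≤ ε ∧ 1 < ‖e + v‖) ∧
  ¬ ∃ u : ℕ → X, Tendsto (fun n => ‖u n‖) atTop (𝓝 1) ∧ (∀ i j, i ≠ j → 2 ≤ ‖u i - u j‖) ∧
    ∀ j, 2 ≤ ‖e + u j‖

/-- The unit sphere is locally uniformly rotund at `e`. -/
def IsLURPoint (e : X) : Prop :=
  ‖e‖ = 1 ∧ ∀ u : ℕ → X, Tendsto (fun n => ‖u n‖) atTop (𝓝 1) →
    Tendsto (fun n => ‖e + u n‖) atTop (𝓝 2) → Tendsto u atTop (𝓝 e)

variable (X)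

/-- The Kottman constant of `X` is smaller than `2`: for some `η > 0` no sequence in the unit ball
is `(2 - η)`-separated. -/
def KottmanLtTwo : Prop :=
  ∃ η > 0, ∀ u : ℕ → X, (∀ n, ‖u n‖ ≤ 1) → ∃ i j, i ≠ j ∧ ‖u i - u j‖ < 2 - η

/-- Every nonempty closed bounded convex subset of `X` has an extreme point. -/
def HasExtremePoints : Prop :=
  ∀ K : Set X, IsClosed K → Bornology.IsBounded K → Convex ℝ K → K.Nonempty →
    (K.extremePoints ℝ).Nonempty

/-- `X` is reflexive. -/
def IsReflexive : Prop := Function.Surjective (NormedSpace.inclusionInDoubleDual ℝ X)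

/-- `X` has no tiling by balls. -/
def NoBallTiling : Prop := ∀ 𝒯 : Set (Set X), ¬ IsBallTiling 𝒯

variable {X}

/-- There is no tiling by balls for the norm `M`. -/
def NoTilingFor (M : Seminorm ℝ X) : Prop := ∀ 𝒯 : Set (Set X), ¬ IsTilingFor M 𝒯

end defs

/-- The equivalent norms on `H` for which there is a tiling by balls form a nowhere dense set. -/
def NowhereDense (H : Type u) [NormedAddCommGroup H] [NormedSpace ℝ H] : Prop :=
  ∀ N : Seminorm ℝ H, Equivalent N → ∀ κ > 0, ∃ M : Seminorm ℝ H,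
    (∀ x, N x ≤ M x ∧ M x ≤ (1 + κ) * N x) ∧ ∃ θ > 0, ∀ M' : Seminorm ℝ H,
      (∀ x, (1 - θ) * M x ≤ M' x ∧ M' x ≤ (1 + θ) * M x) → NoTilingFor M'

/-- There is no tiling by balls for the norms at distance less than `√2` from the given norm. -/
def NearHilbert (H : Type u) [NormedAddCommGroup H] [NormedSpace ℝ H] : Prop :=
  ∀ (M : Seminorm ℝ H) (c C : ℝ), 0 < c → C < √2 * c → (∀ x, c * ‖x‖ ≤ M x ∧ M x ≤ C * ‖x‖) →
    NoTilingFor M

/-- There is no tiling by balls for the norm `max ‖x‖ (p x)`, if `p` is a bounded seminorm such that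
every closed subspace of finite codimension contains a point `x` with `p x < ‖x‖`. -/
def MaxNorms (H : Type u) [NormedAddCommGroup H] [NormedSpace ℝ H] : Prop :=
  ∀ (p M : Seminorm ℝ H) (C : ℝ), (∀ x, p x ≤ C * ‖x‖) → (∀ x, M x = max ‖x‖ (p x)) →
    (∀ G : Finset (H →L[ℝ] ℝ), ∃ x, (∀ f ∈ G, f x = 0) ∧ p x < ‖x‖) → NoTilingFor M

open Pool.Agent.N242.NT

theorem fla : S_FLA.{u} := Pool.Agent.N713.NT.FLA.t_FLA Pool.Agent.N919.NT.t_SEP

theorem core (X : Type u) [NormedAddCommGroup X] [NormedSpace ℝ X] [CompleteSpace X]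
    (hR : Rich X) (B : Set (X × ℝ)) : ¬ Tiling B :=
  t_GOO fla Pool.Agent.N919.NT.t_SEP X hR B

/-- From sets of balls to sets of pairs. -/
theorem no_tiling (X : Type u) [NormedAddCommGroup X] [NormedSpace ℝ X] [CompleteSpace X]
    (hR : Rich X) (𝒯 : Set (Set X)) : ¬ IsBallTiling 𝒯 := by
  rintro ⟨hball, hcov, hdis⟩
  choose! c r hr hT using hball
  refine core X hR ((fun T => (c T, r T)) '' 𝒯) ⟨?_, ?_, ?_⟩
  · rintro b ⟨T, hT1, rfl⟩
    exact hr T hT1
  · intro x
    have hx : x ∈ ⋃₀ 𝒯 := by rw [hcov]; trivial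
    obtain ⟨T, hT1, hxT⟩ := hx
    rw [hT T hT1, mem_closedBall] at hxT
    exact ⟨_, ⟨T, hT1, rfl⟩, by rw [← dist_eq_norm]; exact hxT⟩
  · rintro b ⟨T, hT1, rfl⟩ b' ⟨T', hT1', rfl⟩ hne x hx hx'
    have hne' : T ≠ T' := by
      rintro rfl
      exact hne rfl
    have h1 : Disjoint (interior T) (interior T') := hdis hT1 hT1' hne'
    rw [Set.disjoint_left] at h1
    have hint : ∀ S ∈ 𝒯, ∀ y, ‖y - c S‖ < r S → y ∈ interior S := by
      intro S hS y hy
      rw [hT S hS, interior_closedBall _ (hr S hS).ne', mem_ball, dist_eq_norm]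
      exact hy
    exact h1 (hint T hT1 x hx) (hint T' hT1' x hx')

/-- From a seminorm to a space. -/
theorem no_tiling_for (H : Type u) [NormedAddCommGroup H] [NormedSpace ℝ H] [CompleteSpace H]
    (M : Seminorm ℝ H) (hM : Equivalent M)
    (h : ∀ (Z : Type u) [NormedAddCommGroup Z] [NormedSpace ℝ Z] [CompleteSpace Z] (e : Z ≃L[ℝ] H),
      (∀ z, ‖z‖ = M (e z)) → Rich Z) (𝒯 : Set (Set H)) : ¬ IsTilingFor M 𝒯 := by
  obtain ⟨c, C, hc, hcC⟩ := hM
  obtain ⟨Z, i1, i2, i3, e, he⟩ := Pool.Agent.N701.NT.t_SEM H M c C hc hcC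
  rintro ⟨hball, hcov, hdis⟩
  refine no_tiling Z (h Z e he) ((fun T => e ⁻¹' T) '' 𝒯) ⟨?_, ?_, ?_⟩
  · rintro T' ⟨T, hT, rfl⟩
    obtain ⟨x, r, hr, hTx⟩ := hball T hT
    refine ⟨e.symm x, r, hr, ?_⟩
    ext z
    rw [mem_closedBall, dist_eq_norm, he, map_sub, ContinuousLinearEquiv.apply_symm_apply]
    show e z ∈ T ↔ _
    rw [hTx, Seminorm.mem_closedBall]
  · rw [Set.eq_univ_iff_forall]
    intro z
    have hx : e z ∈ ⋃₀ 𝒯 := by rw [hcov]; trivial
    obtain ⟨T, hT1, hxT⟩ := hx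
    exact ⟨_, ⟨T, hT1, rfl⟩, hxT⟩
  · rintro _ ⟨T, hT, rfl⟩ _ ⟨T', hT', rfl⟩ hne
    have hne' : T ≠ T' := by
      rintro rfl
      exact hne rfl
    have h1 : Disjoint (interior T) (interior T') := hdis hT hT' hne'
    show Disjoint (interior (e.toHomeomorph ⁻¹' T)) (interior (e.toHomeomorph ⁻¹' T'))
    rw [← Homeomorph.preimage_interior, ← Homeomorph.preimage_interior]
    exact h1.preimage _

theorem inf_of_equiv {Z H : Type u} [NormedAddCommGroup Z] [NormedSpace ℝ Z]
    [NormedAddCommGroup H] [NormedSpace ℝ H] (e : Z ≃L[ℝ] H) (hinf : ¬ FiniteDimensional ℝ H) :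
    ¬ FiniteDimensional ℝ Z := fun _ => hinf (Module.Finite.equiv e.toLinearEquiv)

/-- Hilbert spaces: a seminorm with Kottman constant smaller than `2`. -/
theorem no_tiling_ks (H : Type u) [NormedAddCommGroup H] [InnerProductSpace ℝ H] [CompleteSpace H]
    (hinf : ¬ FiniteDimensional ℝ H) (M : Seminorm ℝ H) (hM : Equivalent M) (hK : KS M)
    (𝒯 : Set (Set H)) : ¬ IsTilingFor M 𝒯 := by
  refine no_tiling_for H M hM (fun Z _ _ _ e he => ?_) 𝒯
  refine rich_of_kmp Pool.Agent.N747.NT.t_EXT Z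
    (Pool.Agent.N901.NT.HIL.t_HIL Pool.Agent.N322.NT.t_REF Z H e) (inf_of_equiv e hinf)
    (t_KOT Z ?_)
  obtain ⟨η, hη, hu⟩ := hK
  refine ⟨η, hη, fun u h1 => ?_⟩
  obtain ⟨i, j, hij, h2⟩ := hu (fun n => e (u n)) (fun n => by rw [← he]; exact h1 n)
  refine ⟨i, j, hij, ?_⟩
  rw [he, map_sub]
  exact h2

/-- The norm `max ‖x‖ (p x)`. -/
theorem no_tiling_max (H : Type u) [NormedAddCommGroup H] [InnerProductSpace ℝ H] [CompleteSpace H]
    (hinf : ¬ FiniteDimensional ℝ H) (p M : Seminorm ℝ H) (C : ℝ) (hp : ∀ x, p x ≤ C * ‖x‖)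
    (hM : ∀ x, M x = max ‖x‖ (p x))
    (hker : ∀ G : Finset (H →L[ℝ] ℝ), ∃ x, (∀ f ∈ G, f x = 0) ∧ p x < ‖x‖)
    (𝒯 : Set (Set H)) : ¬ IsTilingFor M 𝒯 := by
  have hMe : Equivalent M := by
    refine ⟨1, max 1 C, one_pos, fun x => ⟨?_, ?_⟩⟩
    · rw [one_mul, hM]
      exact le_max_left _ _
    · rw [hM]
      have h0 := norm_nonneg x
      refine max_le ?_ ((hp x).trans ?_)
      · nlinarith [le_max_left (1 : ℝ) C]
      · nlinarith [le_max_right (1 : ℝ) C]
  refine no_tiling_for H M hMe (fun Z _ _ _ e he => ?_) 𝒯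
  refine rich_of_lur (inf_of_equiv e hinf) fun F ε hε => ?_
  classical
  obtain ⟨x, hx1, hx2⟩ := hker (F.image fun f => f.comp (e.symm : H →L[ℝ] Z))
  have hx0 : 0 < ‖x‖ := lt_of_le_of_lt (apply_nonneg p x) hx2
  obtain ⟨w, hw⟩ : ∃ w : H, w = ‖x‖⁻¹ • x := ⟨_, rfl⟩
  have hwn : ‖w‖ = 1 := by
    rw [hw, norm_smul, norm_inv, norm_norm, inv_mul_cancel₀ hx0.ne']
  have hwp : p w < 1 := by
    rw [hw, map_smul_eq_mul, norm_inv, norm_norm, inv_mul_lt_iff₀ hx0, mul_one]
    exact hx2
  have hMw : M w = 1 := by rw [hM, hwn, max_eq_left hwp.le]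
  refine ⟨e.symm w, ⟨?_, ?_⟩, ?_⟩
  · rw [he, ContinuousLinearEquiv.apply_symm_apply, hMw]
  · intro u hu1 hu2
    have hu1' : Tendsto (fun n => M (e (u n))) atTop (𝓝 1) := by
      simpa only [he] using hu1
    have hu2' : Tendsto (fun n => M (w + e (u n))) atTop (𝓝 2) := by
      have h3 : ∀ n, ‖e.symm w + u n‖ = M (w + e (u n)) := fun n => by
        rw [he, map_add, ContinuousLinearEquiv.apply_symm_apply]
      simpa only [h3] using hu2
    -- eventually `M (w + e (u n)) = ‖w + e (u n)‖`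
    have hev : ∀ᶠ n in atTop, ‖w + e (u n)‖ = M (w + e (u n)) := by
      have h4 : ∀ᶠ n in atTop, M (e (u n)) < 1 + (1 - p w) / 2 :=
        hu1'.eventually_lt_const (by linarith)
      have h5 : ∀ᶠ n in atTop, 2 - (1 - p w) / 2 < M (w + e (u n)) :=
        hu2'.eventually_const_lt (by linarith)
      filter_upwards [h4, h5] with n h6 h7
      have h8 : p (w + e (u n)) < M (w + e (u n)) := by
        have h9 : p (e (u n)) ≤ M (e (u n)) := by
          rw [hM]
          exact le_max_right _ _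
        have h10 := map_add_le_add p w (e (u n))
        linarith
      rw [hM] at h8 ⊢
      rcases le_total (p (w + e (u n))) ‖w + e (u n)‖ with h | h
      · exact (max_eq_left h).symm
      · rw [max_eq_right h] at h8
        exact absurd h8 (lt_irrefl _)
    have h11 : Tendsto (fun n => ‖w + e (u n)‖) atTop (𝓝 2) :=
      hu2'.congr' (hev.mono fun n hn => hn.symm)
    have h12 : ∀ n, ‖e (u n)‖ ≤ M (e (u n)) := fun n => by
      rw [hM]
      exact le_max_left _ _
    have h13 : Tendsto (fun n => 2 * 1 + 2 * M (e (u n)) ^ 2 - ‖w + e (u n)‖ ^ 2) atTop (𝓝 0) := by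
      have h14 := (((hu1'.pow 2).const_mul 2).const_add (2 * 1)).sub (h11.pow 2)
      have h15 : (2 * 1 + 2 * 1 ^ 2 - 2 ^ 2 : ℝ) = 0 := by norm_num
      rwa [h15] at h14
    have h16 : Tendsto (fun n => ‖e (u n) - w‖ ^ 2) atTop (𝓝 0) := by
      refine tendsto_of_tendsto_of_tendsto_of_le_of_le tendsto_const_nhds h13
        (fun n => by positivity) (fun n => ?_)
      have h17 := parallelogram_law_with_norm ℝ w (e (u n))
      have h18 : ‖w - e (u n)‖ = ‖e (u n) - w‖ := norm_sub_rev _ _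
      have h19 : ‖e (u n)‖ ^ 2 ≤ M (e (u n)) ^ 2 :=
        pow_le_pow_left₀ (norm_nonneg _) (h12 n) 2
      rw [hwn, h18] at h17
      show ‖e (u n) - w‖ ^ 2 ≤ 2 * 1 + 2 * M (e (u n)) ^ 2 - ‖w + e (u n)‖ ^ 2
      nlinarith
    have h20 : Tendsto (fun n => ‖e (u n) - w‖) atTop (𝓝 0) := by
      have h21 := h16.sqrt
      simp only [Real.sqrt_zero] at h21
      refine h21.congr fun n => ?_
      exact Real.sqrt_sq (norm_nonneg _)
    have h22 : Tendsto (fun n => e (u n)) atTop (𝓝 w) := tendsto_iff_norm_sub_tendsto_zero.2 h20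
    have h23 := (e.symm.continuous.tendsto w).comp h22
    refine h23.congr fun n => ?_
    exact e.symm_apply_apply (u n)
  · intro f hf
    have h24 := hx1 _ (Finset.mem_image_of_mem (fun f => f.comp (e.symm : H →L[ℝ] Z)) hf)
    have h25 : f (e.symm x) = 0 := h24
    rw [hw, map_smul, map_smul, h25, smul_zero]
    linarith

/-- **Tilings by balls: a local criterion, and renormings of Hilbert spaces.**
The radii of the balls are arbitrary and the tilings are not supposed to be point-finite.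

1. If `X` is a Banach space such that `0` is in the weak closure of the set of the good points of
   the unit sphere, then `X` has no tiling by balls.
2. If `X` is an infinite-dimensional Banach space such that `0` is in the weak closure of the set of
   the points of local uniform rotundity of the unit sphere, then `X` has no tiling by balls.
3. If `X` is an infinite-dimensional reflexive Banach space (or a Banach space in which all
   nonempty closed bounded convex sets have extreme points) with Kottman constant smaller than `2`,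
   then `X` has no tiling by balls.

Let `H` be an infinite-dimensional real Hilbert space.

4. The equivalent norms on `H` for which there is a tiling by balls form a nowhere dense set: for
   every equivalent norm `N` and every `κ > 0` there are a norm `M`, `N ≤ M ≤ (1 + κ) N`, and
   `θ > 0` such that there is no tiling by balls for all norms `M'` with
   `(1 - θ) M ≤ M' ≤ (1 + θ) M`.
5. If `c ‖x‖ ≤ M x ≤ C ‖x‖` for all `x`, where `C < √2 c`, then there is no tiling by `M`-balls.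
6. If `p` is a bounded seminorm on `H` such that every closed subspace of finite codimension
   contains a point `x` with `p x < ‖x‖`, then there is no tiling by balls for the norm
   `max ‖x‖ (p x)`. -/
theorem result :
    (∀ (X : Type u) [NormedAddCommGroup X] [NormedSpace ℝ X] [CompleteSpace X],
      ((0 : WeakSpace ℝ X) ∈ closure (toWeakSpace ℝ X '' {e | IsGood e}) → NoBallTiling X) ∧
      (¬ FiniteDimensional ℝ X →
        (0 : WeakSpace ℝ X) ∈ closure (toWeakSpace ℝ X '' {e | IsLURPoint e}) → NoBallTiling X) ∧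
      (¬ FiniteDimensional ℝ X → IsReflexive X ∨ HasExtremePoints X → KottmanLtTwo X →
        NoBallTiling X)) ∧
    (∀ (H : Type u) [NormedAddCommGroup H] [InnerProductSpace ℝ H] [CompleteSpace H],
      ¬ FiniteDimensional ℝ H → NowhereDense H ∧ NearHilbert H ∧ MaxNorms H) := by
  have hgood : ∀ (X : Type u) [NormedAddCommGroup X] [NormedSpace ℝ X] [CompleteSpace X],
      (0 : WeakSpace ℝ X) ∈ closure (toWeakSpace ℝ X '' {e | IsGood e}) →
      ∀ 𝒯 : Set (Set X), ¬ IsBallTiling 𝒯 := by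
    intro X _ _ _ h 𝒯
    exact no_tiling X (rich_of_weak h) 𝒯
  refine ⟨fun X _ _ _ => ⟨hgood X, ?_, ?_⟩, ?_⟩
  · intro hinf h 𝒯
    refine hgood X (closure_mono (image_mono ?_) h) 𝒯
    intro e he
    exact good_of_lur hinf he
  · intro hinf hRE hK 𝒯
    have hE : KMP X := by
      rcases hRE with h | h
      · exact Pool.Agent.N322.NT.t_REF X h
      · exact h
    exact no_tiling X (rich_of_kmp Pool.Agent.N747.NT.t_EXT X hE hinf (t_KOT X hK)) 𝒯
  · intro H _ _ _ hinf
    refine ⟨?_, ?_, ?_⟩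
    · rintro N ⟨c, C, hc, hcC⟩ κ hκ
      obtain ⟨ε, hε, hεκ⟩ : ∃ ε > 0, ε ^ 2 ≤ ((1 + κ) ^ 2 - 1) * c ^ 2 := by
        refine ⟨√(((1 + κ) ^ 2 - 1) * c ^ 2), Real.sqrt_pos.2 ?_, ?_⟩
        · have : 0 < (1 + κ) ^ 2 - 1 := by nlinarith
          positivity
        · rw [Real.sq_sqrt]
          have : 0 < (1 + κ) ^ 2 - 1 := by nlinarith
          positivity
      obtain ⟨M, hM, hKS⟩ := Pool.Agent.N187.NT.t_PER H N C ε (fun x => (hcC x).2) hε
      obtain ⟨θ, hθ, hθ1, hθM⟩ := t_OPN H M hKS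
      have hNM : ∀ x, N x ≤ M x := fun x => by
        apply le_of_sq_le_sq _ (apply_nonneg _ _)
        rw [hM]
        have : 0 ≤ ε ^ 2 * ‖x‖ ^ 2 := by positivity
        linarith
      have hMN : ∀ x, M x ≤ (1 + κ) * N x := fun x => by
        have h0 : 0 ≤ N x := apply_nonneg _ _
        apply le_of_sq_le_sq _ (by positivity)
        rw [hM, mul_pow]
        have h1 : (c * ‖x‖) ^ 2 ≤ N x ^ 2 := pow_le_pow_left₀ (by positivity) (hcC x).1 2
        have h2 : ε ^ 2 * ‖x‖ ^ 2 ≤ ((1 + κ) ^ 2 - 1) * c ^ 2 * ‖x‖ ^ 2 :=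
          mul_le_mul_of_nonneg_right hεκ (by positivity)
        have h3 : 0 < (1 + κ) ^ 2 - 1 := by nlinarith
        have h4 : ((1 + κ) ^ 2 - 1) * (c * ‖x‖) ^ 2 ≤ ((1 + κ) ^ 2 - 1) * N x ^ 2 :=
          mul_le_mul_of_nonneg_left h1 h3.le
        nlinarith
      refine ⟨M, fun x => ⟨hNM x, hMN x⟩, θ, hθ, fun M' hM' 𝒯 => ?_⟩
      refine no_tiling_ks H hinf M' ⟨(1 - θ) * c, (1 + θ) * ((1 + κ) * C), ?_, fun x => ⟨?_, ?_⟩⟩
        (hθM M' hM') 𝒯
      · have : 0 < 1 - θ := by linarith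
        positivity
      · have h1 := (hM' x).1
        have h2 := hNM x
        have h3 := (hcC x).1
        have h4 : 0 < 1 - θ := by linarith
        calc (1 - θ) * c * ‖x‖ = (1 - θ) * (c * ‖x‖) := by ring
          _ ≤ (1 - θ) * M x := mul_le_mul_of_nonneg_left (h3.trans h2) h4.le
          _ ≤ M' x := h1
      · calc M' x ≤ (1 + θ) * M x := (hM' x).2
          _ ≤ (1 + θ) * ((1 + κ) * (C * ‖x‖)) := by
            refine mul_le_mul_of_nonneg_left ((hMN x).trans ?_) (by linarith)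
            exact mul_le_mul_of_nonneg_left (hcC x).2 (by linarith)
          _ = (1 + θ) * ((1 + κ) * C) * ‖x‖ := by ring
    · intro M c C hc hC hcC 𝒯
      by_cases hC0 : 0 ≤ C
      · refine no_tiling_ks H hinf M ⟨c, C, hc, hcC⟩
          (Pool.Agent.N946.NT.t_DIS H M c C hc ?_ hcC) 𝒯
        have h1 : C ^ 2 < (√2 * c) ^ 2 := pow_lt_pow_left₀ hC hC0 two_ne_zero
        rw [mul_pow, Real.sq_sqrt (by norm_num)] at h1
        exact h1
      · exfalso
        push Not at hC0
        obtain ⟨x, hx⟩ : ∃ x : H, x ≠ 0 := by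
          by_contra h
          push Not at h
          have : Subsingleton H := ⟨fun a b => by rw [h a, h b]⟩
          exact hinf inferInstance
        have hxn : 0 < ‖x‖ := norm_pos_iff.2 hx
        have h1 := hcC x
        have h2 : c * ‖x‖ ≤ C * ‖x‖ := h1.1.trans h1.2
        nlinarith
    · intro p M C hp hM hker 𝒯
      exact no_tiling_max H hinf p M C hp hM hker 𝒯

end Pool.Agent.Results.MP_73700b_an.BallTilings
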