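import Pool.Agent.N242.KB.Cells

/-!
# MP_73700b_an: tilings of Klee type are not point-finite

Project KB: helper242 (proof, assembly), helper717 (KFI), helper163 (EXY),
helper281 (RIG); built on the projects HB (helper186, helper143, helper935, helper953, helper749,
helper865, helper933, helper707) and NT (helper919, helper713, helper322, helper901, helper701).
-/

set_option autoImplicit false

open Metric Set Filter Topology

namespace Pool.Agent.Results.MP_73700b_an.KleeTilings

universe u

/-- The Voronoi cell of `g` with respect to the set `G`. -/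
def cell {H : Type u} [NormedAddCommGroup H] (G : Set H) (g : H) : Set H :=
  {x | ∀ h ∈ G, ‖x - g‖ ≤ ‖x - h‖}

/-- **Tilings of Klee type are not point-finite.** Let `H` be an infinite-dimensional real Hilbert
space (of any density character), let `R > 0` and let `G` be a `√2 R`-separated subset of `H` such
that every point of `H` is at distance at most `R` from some point of `G`. (Klee has constructed
such sets in `ℓ²(Γ)` for suitable uncountable `Γ`.) The Voronoi cells of `G` are a tiling of `H` by
bounded closed convex sets with nonempty interiors, and some point of `H` lies in infinitely many of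
them. -/
theorem result (H : Type u) [NormedAddCommGroup H] [InnerProductSpace ℝ H] [CompleteSpace H]
    (hinf : ¬ FiniteDimensional ℝ H) (G : Set H) (R : ℝ) (hR : 0 < R)
    (hsep : ∀ g ∈ G, ∀ h ∈ G, g ≠ h → √2 * R ≤ ‖g - h‖) (hcov : ∀ x, ∃ g ∈ G, ‖x - g‖ ≤ R) :
    (∀ g ∈ G, IsClosed (cell G g) ∧ Convex ℝ (cell G g) ∧ Bornology.IsBounded (cell G g) ∧
      (interior (cell G g)).Nonempty) ∧
    (⋃ g ∈ G, cell G g) = univ ∧
    (∀ g ∈ G, ∀ h ∈ G, g ≠ h → Disjoint (interior (cell G g)) (interior (cell G h))) ∧
    ∃ x, {g | g ∈ G ∧ x ∈ cell G g}.Infinite := by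
  refine ⟨fun g hg => ⟨?_, ?_, ?_, ?_⟩, ?_, fun g hg h hh hne => ?_, ?_⟩
  · exact Pool.Agent.N242.KB.vor_closed G g
  · exact Pool.Agent.N242.KB.vor_convex G g
  · exact Pool.Agent.N242.KB.vor_bounded G g R hcov
  · exact Pool.Agent.N242.KB.vor_interior G g hg R hR hsep
  · rw [Set.eq_univ_iff_forall]
    intro x
    obtain ⟨g, hg, hx⟩ := Pool.Agent.N242.KB.vor_cover G R hR hsep hcov x
    exact mem_biUnion hg hx
  · exact Pool.Agent.N242.KB.vor_disjoint G g h hg hh hne
  · exact Pool.Agent.N242.KB.voronoi H hinf G R hR hsep hcov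

end Pool.Agent.Results.MP_73700b_an.KleeTilings
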