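import Pool.Agent.N242.KB.Scale

/-!
# MP_73700b_an: tilings by translates of a ball of a norm at distance `√2` from the Hilbert norm are
not point-finite

Project KB: helper242 (proof, assembly), helper717 (KFI), helper163 (EXY),
helper281 (RIG); built on the projects HB (helper186, helper143, helper935, helper953, helper749,
helper865, helper933, helper707) and NT (helper919, helper713, helper322, helper901, helper701).
-/

set_option autoImplicit false

open Metric Set Filter Topology

namespace Pool.Agent.Results.MP_73700b_an.TranslatesOfBalls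

universe u

section defs

variable {H : Type u} [NormedAddCommGroup H] [InnerProductSpace ℝ H]

/-- The Voronoi cell of `g` with respect to the set `G`. -/
def cell (G : Set H) (g : H) : Set H := {x | ∀ h ∈ G, ‖x - g‖ ≤ ‖x - h‖}

/-- `𝒯` is a tiling of `H` by translates of the closed ball of radius `r` of the norm `M`. -/
def IsTiling (M : Seminorm ℝ H) (r : ℝ) (𝒯 : Set (Set H)) : Prop :=
  (∀ T ∈ 𝒯, ∃ g : H, T = M.closedBall g r) ∧ ⋃₀ 𝒯 = univ ∧
    𝒯.Pairwise fun S T => Disjoint (interior S) (interior T)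

end defs

open Pool.Agent.N242.KB

/-- Let `H` be an infinite-dimensional real Hilbert space (of any density character), let `M` be a
norm on `H` with `c ‖x‖ ≤ M x ≤ √2 c ‖x‖`, and let `𝒯` be a tiling of `H` by translates of the
closed `M`-ball of radius `r`. Then the tiles are the Voronoi cells (for the Hilbert norm) of the
set `G` of their centres, and some point of `H` lies in infinitely many tiles. -/
theorem result (H : Type u) [NormedAddCommGroup H] [InnerProductSpace ℝ H] [CompleteSpace H]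
    (hinf : ¬ FiniteDimensional ℝ H) (M : Seminorm ℝ H) (c : ℝ) (hc : 0 < c)
    (hM : ∀ x, c * ‖x‖ ≤ M x ∧ M x ≤ √2 * c * ‖x‖) (r : ℝ) (hr : 0 < r) (𝒯 : Set (Set H))
    (h𝒯 : IsTiling M r 𝒯) :
    (∃ G : Set H, 𝒯 = (fun g => M.closedBall g r) '' G ∧
      ∀ g ∈ G, M.closedBall g r = cell G g) ∧
    ∃ x, {T | T ∈ 𝒯 ∧ x ∈ T}.Infinite := by
  obtain ⟨hball, hcov, hdis⟩ := h𝒯
  choose! γ hγ using hball
  have hs2 : (0 : ℝ) < √2 := Real.sqrt_pos.2 (by norm_num)
  have hs2' : √2 * √2 = 2 := Real.mul_self_sqrt (by norm_num)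
  have hsc : 0 < √2 * c := by positivity
  -- points of the open ball are interior points
  have hint : ∀ g m : H, M (m - g) < r → m ∈ interior (M.closedBall g r) := by
    intro g m hm
    rw [mem_interior_iff_mem_nhds, Metric.mem_nhds_iff]
    refine ⟨(r - M (m - g)) / (√2 * c), div_pos (by linarith) hsc, fun y hy => ?_⟩
    rw [mem_ball, dist_eq_norm, lt_div_iff₀ hsc] at hy
    rw [Seminorm.mem_closedBall]
    have h1 : M (y - g) ≤ M (y - m) + M (m - g) := by
      have := map_add_le_add M (y - m) (m - g)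
      rwa [sub_add_sub_cancel] at this
    have h2 := (hM (y - m)).2
    linarith
  have hsep : ∀ g ∈ γ '' 𝒯, ∀ h ∈ γ '' 𝒯, g ≠ h → 2 * r ≤ M (g - h) := by
    rintro _ ⟨S, hS, rfl⟩ _ ⟨T, hT, rfl⟩ hne
    have hST : S ≠ T := by
      rintro rfl
      exact hne rfl
    have hd : Disjoint (interior S) (interior T) := hdis hS hT hST
    by_contra hlt
    push Not at hlt
    obtain ⟨m, hm⟩ : ∃ m : H, m = (1 / 2 : ℝ) • (γ S + γ T) := ⟨_, rfl⟩
    have e1 : m - γ S = (-(1 / 2) : ℝ) • (γ S - γ T) := by rw [hm]; module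
    have e2 : m - γ T = (1 / 2 : ℝ) • (γ S - γ T) := by rw [hm]; module
    have n1 : M (m - γ S) < r := by
      rw [e1, map_smul_eq_mul, norm_neg, Real.norm_of_nonneg (by norm_num)]
      linarith
    have n2 : M (m - γ T) < r := by
      rw [e2, map_smul_eq_mul, Real.norm_of_nonneg (by norm_num)]
      linarith
    rw [Set.disjoint_left] at hd
    refine hd (a := m) ?_ ?_
    · rw [hγ S hS]
      exact hint _ _ n1
    · rw [hγ T hT]
      exact hint _ _ n2
  have hcen : ∀ x, ∃ g ∈ γ '' 𝒯, M (x - g) ≤ r := by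
    intro x
    have hx : x ∈ ⋃₀ 𝒯 := by rw [hcov]; trivial
    obtain ⟨T, hT, hxT⟩ := hx
    rw [hγ T hT, Seminorm.mem_closedBall] at hxT
    exact ⟨_, ⟨T, hT, rfl⟩, hxT⟩
  have hrig := rigid H hinf M c hc hM r hr (γ '' 𝒯) hsep hcen
  refine ⟨⟨γ '' 𝒯, ?_, hrig⟩, ?_⟩
  · ext T
    constructor
    · intro hT
      exact ⟨γ T, ⟨T, hT, rfl⟩, (hγ T hT).symm⟩
    · rintro ⟨_, ⟨S, hS, rfl⟩, rfl⟩
      show M.closedBall (γ S) r ∈ 𝒯
      rw [← hγ S hS]
      exact hS
  · obtain ⟨x, hx⟩ := voronoi H hinf (γ '' 𝒯) (r / c) (by positivity) (by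
      intro g hg h hh hne
      have h1 := hsep g hg h hh hne
      have h2 := (hM (g - h)).2
      have h3 : √2 * (√2 * c * ‖g - h‖) = 2 * (c * ‖g - h‖) := by
        linear_combination (c * ‖g - h‖) * hs2'
      have h4 : √2 * (2 * r) ≤ 2 * (c * ‖g - h‖) := by
        rw [← h3]
        exact mul_le_mul_of_nonneg_left (h1.trans h2) hs2.le
      rw [← mul_div_assoc, div_le_iff₀ hc]
      linarith) (by
      intro x
      obtain ⟨g, hg, h1⟩ := hcen x
      refine ⟨g, hg, ?_⟩
      have h2 := (hM (x - g)).1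
      rw [le_div_iff₀ hc]
      linarith)
    refine ⟨x, fun hfin => hx ?_⟩
    refine (hfin.image γ).subset ?_
    rintro _ ⟨⟨T, hT, rfl⟩, hxT⟩
    refine ⟨T, ⟨hT, ?_⟩, rfl⟩
    rw [hγ T hT, hrig _ ⟨T, hT, rfl⟩]
    exact hxT

end Pool.Agent.Results.MP_73700b_an.TranslatesOfBalls
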